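import Pool.Agent.H48.JpB

set_option autoImplicit false

namespace Pool.Agent.Results.MP_78c6b8_an.Yes

open Pool.Agent.H48.JpDefs

theorem result (Γ : Pth) (hΓ : Adm Γ) (γ : Pth) (hinj : Set.InjOn γ.f (Set.Icc γ.a γ.b))
    (hin : Im γ ⊆ Im Γ) : γ ∈ Gen (Im Γ) {σ | Sub σ Γ} :=
  Pool.Agent.H48.JpB.main Γ γ hΓ.1 hinj hin

end Pool.Agent.Results.MP_78c6b8_an.Yes
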